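import Pool.Agent.Helper92.ZH.Goals
import Pool.Agent.Helper7.VN.WRZ0

/-! Packet T3-SPZ (MP_a41896_nt, zero estimate of P3): a coefficient of a polynomial which vanishes at a constant point -/

set_option autoImplicit false

open MvPolynomial

namespace Pool.Agent.Helper13.ZH.SPZ

open Pool.Agent.Helper92.Ru
open Pool.Agent.Helper7.VN (sp lft rgt sum_lft_rgt lft_sum rgt_sum sp_monomial)

noncomputable section

variable {k : Type} [Field k] {σ τ : Type} [Fintype σ] [Fintype τ] [DecidableEq σ] [DecidableEq τ]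

/-- the coefficient of the monomial with exponent `m` in the first group of variables -/
def cl (R : MvPolynomial (σ ⊕ τ) k) (m : σ →₀ ℕ) : MvPolynomial τ k :=
  ∑ e ∈ R.support, if lft e = m then monomial (rgt e) (coeff e R) else 0

theorem coeff_cl (R : MvPolynomial (σ ⊕ τ) k) (m : σ →₀ ℕ) (g : τ →₀ ℕ) :
    coeff g (cl R m) = coeff (Finsupp.sumElim m g) R := by
  unfold cl
  rw [coeff_sum, Finset.sum_eq_single (Finsupp.sumElim m g)]
  · rw [if_pos (lft_sum m g), rgt_sum, coeff_monomial, if_pos rfl]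
  · intro e _ hne
    by_cases h1 : lft e = m
    · rw [if_pos h1, coeff_monomial, if_neg]
      intro h2
      apply hne
      rw [← sum_lft_rgt e, h1, h2]
    · rw [if_neg h1, coeff_zero]
  · intro h
    rw [notMem_support_iff] at h
    rw [h, monomial_zero, ite_self, coeff_zero]

theorem eval_cl (R : MvPolynomial (σ ⊕ τ) k) (m : σ →₀ ℕ) (η : τ → k) :
    eval η (cl R m) = coeff m (sp η R) := by
  have h1 : coeff m (sp η R) = ∑ e ∈ R.support,
      if lft e = m then coeff e R * ∏ t, η t ^ rgt e t else 0 := by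
    conv_lhs => rw [R.as_sum, map_sum, coeff_sum]
    refine Finset.sum_congr rfl fun e _ => ?_
    rw [sp_monomial, coeff_monomial]
  rw [h1]
  unfold cl
  rw [map_sum]
  refine Finset.sum_congr rfl fun e _ => ?_
  by_cases h : lft e = m
  · rw [if_pos h, if_pos h, eval_monomial, Finsupp.prod_fintype _ _ (by simp)]
  · rw [if_neg h, if_neg h, map_zero]

theorem t : Pool.Agent.Helper92.ZH.SPZ := by
  intro K _ _ σ τ _ _ _ _ R η hR hsp
  obtain ⟨e0, he0⟩ := ne_zero_iff.1 hR
  have hsupp : ∀ g, coeff g (cl R (lft e0)) ≠ 0 → Finsupp.sumElim (lft e0) g ∈ R.support := by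
    intro g hg
    rw [coeff_cl] at hg
    exact mem_support_iff.2 hg
  refine ⟨cl R (lft e0), ?_, ?_, ?_, ?_⟩
  · rw [ne_zero_iff]
    refine ⟨rgt e0, ?_⟩
    rw [coeff_cl, sum_lft_rgt]
    exact he0
  · intro t
    rw [degreeOf_le_iff]
    intro m hm
    have h1 := monomial_le_degreeOf (Sum.inr t) (hsupp m (mem_support_iff.1 hm))
    rwa [Finsupp.sumElim_inr] at h1
  · refine Real.log_le_log (Height.mulHeight_pos _) ?_
    unfold PH
    have h2 := Height.mulHeight_comp_le
      (fun m : (cl R (lft e0)).support =>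
        (⟨Finsupp.sumElim (lft e0) m.1, hsupp m.1 (mem_support_iff.1 m.2)⟩ : R.support))
      (fun e : R.support => coeff e.1 R)
    refine le_trans (le_of_eq ?_) h2
    congr 1
    funext m
    exact coeff_cl R (lft e0) m.1
  · rw [eval_cl]
    have h3 : sp η R = 0 := hsp
    rw [h3, coeff_zero]

end

end Pool.Agent.Helper13.ZH.SPZ
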